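import Pool.Agent.Helper45.LinK.GoalsK

/-! # Packet LIO: quasiconformal entire automorphisms of `ℂᵏ` are affine -/

open Complex Metric Set Filter Topology
open scoped ContDiff

namespace Pool.Agent.Helper73.LinK

open Pool.Agent.Helper45.LinK Pool.Agent.Helper95.Lin Pool.Agent.Helper16.Abund
  Pool.Agent.Helper92.Orb

namespace LIO

variable {k : ℕ}

/-- The entries of a linear map. -/
noncomputable def ent (L : CE k) (i j : Fin k) : ℂ := L (Pi.single j 1) i

theorem apply_eq_sum (L : CE k) (v : Cn k) (i : Fin k) : L v i = ∑ j, v j * ent L i j := by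
  have h : v = ∑ j, v j • (Pi.single j (1:ℂ) : Cn k) := by
    funext l
    rw [Finset.sum_apply]
    simp [Pi.single_apply]
  conv_lhs => rw [h]
  rw [map_sum, Finset.sum_apply]
  refine Finset.sum_congr rfl fun j _ => ?_
  rw [map_smul]
  rfl

theorem ext_ent {L M : CE k} (h : ∀ i j, ent L i j = ent M i j) : L = M := by
  refine ContinuousLinearMap.ext fun v => funext fun i => ?_
  rw [apply_eq_sum, apply_eq_sum]
  exact Finset.sum_congr rfl fun j _ => by rw [h]

theorem det_eq (L : CE k) : L.det = Matrix.det (fun i j => ent L i j) := by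
  have h := LinearMap.det_toMatrix' (L : Cn k →ₗ[ℂ] Cn k)
  rw [ContinuousLinearMap.det, ← h]
  congr 1

theorem norm_ent_le (L : CE k) (i j : Fin k) : ‖ent L i j‖ ≤ ‖L‖ := by
  refine (norm_le_pi_norm (L (Pi.single j 1)) i).trans ?_
  refine (L.le_opNorm _).trans ?_
  have : ‖(Pi.single j (1:ℂ) : Cn k)‖ ≤ 1 := by
    rw [pi_norm_le_iff_of_nonneg zero_le_one]
    intro l
    rw [Pi.single_apply]
    split_ifs <;> simp
  calc ‖L‖ * ‖(Pi.single j (1:ℂ) : Cn k)‖ ≤ ‖L‖ * 1 :=
        mul_le_mul_of_nonneg_left this (norm_nonneg _)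
    _ = ‖L‖ := mul_one _

theorem diff_ent {L : Cn k → CE k} (hL : Differentiable ℂ L) (i j : Fin k) :
    Differentiable ℂ fun w => ent (L w) i j := by
  have h1 : Differentiable ℂ fun w => L w (Pi.single j 1) := fun w =>
    (hL w).clm_apply (differentiableAt_const _)
  exact fun w => (differentiableAt_pi.1 (h1 w)) i

theorem diff_prod {ι : Type*} (s : Finset ι) {f : ι → Cn k → ℂ}
    (hf : ∀ i, Differentiable ℂ (f i)) : Differentiable ℂ fun w => ∏ i ∈ s, f i w := by
  classical
  induction s using Finset.induction_on with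
  | empty => simp
  | insert a s ha ih =>
    have : (fun w => ∏ i ∈ insert a s, f i w) = fun w => f a w * ∏ i ∈ s, f i w :=
      funext fun w => Finset.prod_insert ha
    rw [this]
    exact (hf a).mul ih

theorem diff_det {L : Cn k → CE k} (hL : Differentiable ℂ L) :
    Differentiable ℂ fun w => (L w).det := by
  have : (fun w => (L w).det) = fun w =>
      ∑ σ : Equiv.Perm (Fin k), ((σ.sign : ℤ) : ℂ) * ∏ i, ent (L w) (σ i) i := by
    funext w
    rw [det_eq, Matrix.det_apply']
  rw [this]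
  refine Differentiable.fun_sum fun σ _ => ?_
  refine (differentiable_const _).mul ?_
  exact diff_prod _ fun i => diff_ent hL (σ i) i

/-- A bounded quotient of entire functions is constant. -/
theorem const_quot {f d : Cn k → ℂ} (hf : Differentiable ℂ f) (hd : Differentiable ℂ d)
    (h0 : ∀ w, d w ≠ 0) {B : ℝ} (hB : ∀ w, ‖f w‖ ≤ B * ‖d w‖) (w : Cn k) :
    f w / d w = f 0 / d 0 := by
  have hq : Differentiable ℂ fun w => f w / d w := by
    have : (fun w => f w / d w) = fun w => f w * (d w)⁻¹ := funext fun w => div_eq_mul_inv _ _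
    rw [this]
    exact fun w => (hf w).mul ((hd w).inv (h0 w))
  refine hq.apply_eq_apply_of_bounded ?_ w 0
  refine (isBounded_iff_forall_norm_le).2 ⟨B, ?_⟩
  rintro _ ⟨w, rfl⟩
  change ‖f w / d w‖ ≤ B
  rw [norm_div, div_le_iff₀ (norm_pos_iff.2 (h0 w))]
  exact hB w

/-- The case `k ≥ 2`. -/
theorem two_le (hD : S_DETB) (hk : 2 ≤ k) (F G : Cn k → Cn k) (hF : Differentiable ℂ F)
    (hG : Differentiable ℂ G) (hGF : ∀ w, G (F w) = w) (C : ℝ) (hC : 0 ≤ C)
    (hqc : ∀ w, QC C (fderiv ℂ F w)) (w : Cn k) : F w = fderiv ℂ F 0 w + F 0 := by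
  obtain ⟨c, hc1, _, hc3⟩ := hD k
  have hL : Differentiable ℂ (fderiv ℂ F) :=
    differentiableOn_univ.1 (holo_fderiv isOpen_univ hF.differentiableOn)
  have hinv : ∀ w v, fderiv ℂ G (F w) (fderiv ℂ F w v) = v := by
    intro w v
    have h1 := fderiv_comp w (hG (F w)) (hF w)
    have h2 : G ∘ F = id := funext hGF
    rw [h2, fderiv_id] at h1
    have h3 := DFunLike.congr_fun h1 v
    exact h3.symm
  have hinj : ∀ w, Function.Injective (fderiv ℂ F w) := fun w v v' h => by
    rw [← hinv w v, h, hinv]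
  have hdet : ∀ w, (fderiv ℂ F w).det ≠ 0 := by
    intro w h0
    have h1 : (LinearMap.det (fderiv ℂ F w : Cn k →ₗ[ℂ] Cn k)) = 0 := h0
    have h2 := LinearMap.bot_lt_ker_of_det_eq_zero h1
    have h3 : LinearMap.ker (fderiv ℂ F w : Cn k →ₗ[ℂ] Cn k) = ⊥ :=
      LinearMap.ker_eq_bot.2 (hinj w)
    rw [h3] at h2
    exact lt_irrefl _ h2
  have hdd := diff_det hL
  have hk0 : k ≠ 0 := by omega
  -- the powers of the entries divided by the determinant are constant
  have hconst : ∀ i j w, ent (fderiv ℂ F w) i j ^ k / (fderiv ℂ F w).det =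
      ent (fderiv ℂ F 0) i j ^ k / (fderiv ℂ F 0).det := by
    intro i j w
    refine const_quot (fun w => (diff_ent hL i j w).pow k) hdd hdet (B := c * C ^ k) ?_ w
    intro w
    change ‖ent (fderiv ℂ F w) i j ^ k‖ ≤ _
    rw [norm_pow]
    exact (pow_le_pow_left₀ (norm_nonneg _) (norm_ent_le _ i j) k).trans (hc3 _ C hC (hqc w))
  -- a nonzero entry
  obtain ⟨i0, j0, hij⟩ : ∃ i j, ent (fderiv ℂ F 0) i j ≠ 0 := by
    by_contra hcon
    push Not at hcon
    have h0 : fderiv ℂ F 0 = 0 := ext_ent fun i j => by rw [hcon i j]; rfl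
    have h1 := hinv 0 (Pi.single ⟨0, by omega⟩ 1)
    rw [h0, _root_.zero_apply, map_zero] at h1
    have h2 := congrFun h1 ⟨0, by omega⟩
    simp at h2
  set e : Cn k → ℂ := fun w => ent (fderiv ℂ F w) i0 j0 with he
  have he0 : ∀ w, e w ≠ 0 := by
    intro w h0
    have h1 := hconst i0 j0 w
    change e w ^ k / _ = e 0 ^ k / _ at h1
    rw [h0, zero_pow hk0, zero_div] at h1
    exact (div_ne_zero (pow_ne_zero _ hij) (hdet 0)) h1.symm
  have hed : Differentiable ℂ e := diff_ent hL i0 j0
  -- all entries are multiples of e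
  have hmul : ∀ i j w, ent (fderiv ℂ F w) i j / e w = ent (fderiv ℂ F 0) i j / e 0 := by
    intro i j w
    have hb : ∀ w, ‖ent (fderiv ℂ F w) i j / e w‖ ^ k = ‖ent (fderiv ℂ F 0) i j / e 0‖ ^ k := by
      intro w
      rw [← norm_pow, ← norm_pow, div_pow, div_pow]
      congr 1
      have h1 := hconst i j w
      have h2 := hconst i0 j0 w
      change e w ^ k / _ = e 0 ^ k / _ at h2
      have hd1 := hdet w
      have hd2 := hdet 0
      have he1 := pow_ne_zero k (he0 w)
      have he2 := pow_ne_zero k (he0 0)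
      have : ent (fderiv ℂ F w) i j ^ k / e w ^ k =
          (ent (fderiv ℂ F w) i j ^ k / (fderiv ℂ F w).det) / (e w ^ k / (fderiv ℂ F w).det) := by
        field_simp
      rw [this, h1, h2]
      field_simp
    have hb' : ∀ w, ‖ent (fderiv ℂ F w) i j / e w‖ = ‖ent (fderiv ℂ F 0) i j / e 0‖ := fun w =>
      (pow_left_inj₀ (norm_nonneg _) (norm_nonneg _) hk0).1 (hb w)
    refine const_quot (diff_ent hL i j) hed he0 (B := ‖ent (fderiv ℂ F 0) i j / e 0‖) ?_ w
    intro w
    rw [← hb' w, norm_div, div_mul_cancel₀ _ (norm_ne_zero_iff.2 (he0 w))]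
  have hT : ∀ w, fderiv ℂ F w = (e w / e 0) • fderiv ℂ F 0 := by
    intro w
    refine ext_ent fun i j => ?_
    have h1 := hmul i j w
    rw [div_eq_div_iff (he0 w) (he0 0)] at h1
    change _ = (e w / e 0) * ent (fderiv ℂ F 0) i j
    have h2 := he0 0
    field_simp
    linear_combination h1
  -- the derivative of e vanishes
  have hde : ∀ w, fderiv ℂ e w = 0 := by
    intro w
    have hsd : HasFDerivAt (fderiv ℂ F)
        (((e 0)⁻¹ • fderiv ℂ e w).smulRight (fderiv ℂ F 0)) w := by
      have h1 : HasFDerivAt (fun w => e w / e 0) ((e 0)⁻¹ • fderiv ℂ e w) w := by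
        have := ((hed w).hasFDerivAt).mul_const (e 0)⁻¹
        simpa [div_eq_mul_inv] using this
      have h2 := h1.smul_const (fderiv ℂ F 0)
      exact h2.congr_of_eventuallyEq (Filter.Eventually.of_forall hT)
    have hsym := second_derivative_symmetric (fun y => (hF y).hasFDerivAt) hsd
    have key : ∀ u v : Cn k, ((e 0)⁻¹ * fderiv ℂ e w u) • v = ((e 0)⁻¹ * fderiv ℂ e w v) • u := by
      intro u v
      apply hinj 0
      rw [map_smul, map_smul]
      exact hsym u v
    have hb : ∀ i : Fin k, fderiv ℂ e w (Pi.single i 1) = 0 := by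
      intro i
      obtain ⟨j, hj⟩ : ∃ j : Fin k, j ≠ i := by
        by_cases hi : i = ⟨0, by omega⟩
        · exact ⟨⟨1, by omega⟩, by rw [hi]; simp⟩
        · exact ⟨⟨0, by omega⟩, fun h => hi h.symm⟩
      have h1 := congrFun (key (Pi.single i 1) (Pi.single j 1)) j
      simp only [Pi.smul_apply, Pi.single_eq_same, smul_eq_mul, mul_one,
        Pi.single_eq_of_ne hj, mul_zero] at h1
      rcases mul_eq_zero.1 h1 with h2 | h2
      · exact absurd h2 (inv_ne_zero (he0 0))
      · exact h2
    refine ContinuousLinearMap.ext fun v => ?_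
    have h : v = ∑ j, v j • (Pi.single j (1:ℂ) : Cn k) := by
      funext l
      rw [Finset.sum_apply]
      simp [Pi.single_apply]
    rw [h, map_sum, _root_.zero_apply]
    exact Finset.sum_eq_zero fun j _ => by rw [map_smul, hb j, smul_zero]
  have hec : ∀ w, e w = e 0 := fun w => is_const_of_fderiv_eq_zero hed hde w 0
  have hLc : ∀ w, fderiv ℂ F w = fderiv ℂ F 0 := by
    intro w
    rw [hT w, hec w, div_self (he0 0), one_smul]
  have hH : ∀ w, F w - fderiv ℂ F 0 w = F 0 - fderiv ℂ F 0 0 := by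
    intro w
    have hd : Differentiable ℂ fun w => F w - fderiv ℂ F 0 w :=
      hF.sub (fderiv ℂ F 0).differentiable
    refine is_const_of_fderiv_eq_zero hd (fun w => ?_) w 0
    have h1 := (hF w).hasFDerivAt.sub ((fderiv ℂ F 0).hasFDerivAt (x := w))
    have h2 := h1.fderiv
    rw [hLc w, sub_self] at h2
    exact h2
  have h1 := hH w
  rw [map_zero, sub_zero, sub_eq_iff_eq_add] at h1
  rw [h1, add_comm]

/-- The case `k = 1`. -/
theorem one (hA : S_AFF) (F G : Cn 1 → Cn 1) (hF : Differentiable ℂ F)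
    (hG : Differentiable ℂ G) (hGF : ∀ w, G (F w) = w) (hFG : ∀ w, F (G w) = w) (w : Cn 1) :
    F w = fderiv ℂ F 0 w + F 0 := by
  have hcd : Differentiable ℂ (fun t : ℂ => (fun _ => t : Cn 1)) :=
    differentiable_pi.2 fun _ => differentiable_id
  have hw : ∀ v : Cn 1, (fun _ => v 0) = v := fun v => funext fun i => by
    rw [Subsingleton.elim i 0]
  obtain ⟨a, β, ha, hab⟩ := hA (fun t => F (fun _ => t) 0) (fun t => G (fun _ => t) 0)
    (fun t => (differentiableAt_pi.1 ((hF _).comp t (hcd t))) 0)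
    (fun t => (differentiableAt_pi.1 ((hG _).comp t (hcd t))) 0)
    (fun t => by
      change G (fun _ => F (fun _ => t) 0) 0 = t
      rw [hw, hGF])
    (fun t => by
      change F (fun _ => G (fun _ => t) 0) 0 = t
      rw [hw, hFG])
  have hFw : ∀ v : Cn 1, F v = a • v + fun _ => β := by
    intro v
    funext i
    have h1 := hab (v 0)
    rw [hw] at h1
    rw [Subsingleton.elim i 0, h1]
    rfl
  have hfd : fderiv ℂ F 0 = a • ContinuousLinearMap.id ℂ (Cn 1) := by
    have h1 : F = fun v => a • v + fun _ => β := funext hFw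
    rw [h1]
    have h2 : HasFDerivAt (fun v : Cn 1 => a • v + fun _ => β)
        (a • ContinuousLinearMap.id ℂ (Cn 1)) 0 :=
      ((hasFDerivAt_id (0 : Cn 1)).const_smul a).add_const _
    exact h2.fderiv
  rw [hfd, hFw w, hFw 0, smul_zero, zero_add]
  rfl

end LIO

/-- **Packet LIO**. -/
theorem lio (hA : S_AFF) (hD : S_DETB) : S_LIO := by
  intro k F G hF hG hGF hFG C hC hqc w
  rcases Nat.lt_or_ge k 2 with hk | hk
  · interval_cases k
    · exact funext fun i => i.elim0
    · exact LIO.one hA F G hF hG hGF hFG w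
  · exact LIO.two_le hD hk F G hF hG hGF C hC hqc w

end Pool.Agent.Helper73.LinK
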